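import Mathlib

/-!
Counting of the subrings that contain a given element: the two element argument.
-/

set_option autoImplicit false

namespace Pool.Agent.Q172.UC

universe u v

/-- If the elements with both properties can be mapped injectively to the elements with none of
them, then one of the two properties holds for at most half of the elements. -/
theorem two_of_inj {X : Type*} [Finite X] (P Q : X → Prop)
    (φ : {x : X // P x ∧ Q x} → {x : X // ¬ P x ∧ ¬ Q x}) (hφ : Function.Injective φ) :
    2 * Nat.card {x : X // P x} ≤ Nat.card X ∨ 2 * Nat.card {x : X // Q x} ≤ Nat.card X := by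
  classical
  haveI := Fintype.ofFinite X
  have h1 : Nat.card {x : X // P x ∧ Q x} ≤ Nat.card {x : X // ¬ P x ∧ ¬ Q x} :=
    Nat.card_le_card_of_injective φ hφ
  simp only [Nat.card_eq_fintype_card, Fintype.card_subtype] at h1 ⊢
  have hX : Fintype.card X = (Finset.univ.filter fun x : X => P x).card +
      (Finset.univ.filter fun x : X => ¬ P x).card := by
    rw [Finset.card_filter_add_card_filter_not]
    rfl
  have e1 : (Finset.univ.filter fun x : X => P x).card =
      (Finset.univ.filter fun x : X => P x ∧ Q x).card +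
      (Finset.univ.filter fun x : X => P x ∧ ¬ Q x).card := by
    rw [← Finset.card_filter_add_card_filter_not (s := Finset.univ.filter fun x : X => P x)
      (p := Q), Finset.filter_filter, Finset.filter_filter]
  have e2 : (Finset.univ.filter fun x : X => Q x).card =
      (Finset.univ.filter fun x : X => P x ∧ Q x).card +
      (Finset.univ.filter fun x : X => ¬ P x ∧ Q x).card := by
    rw [← Finset.card_filter_add_card_filter_not (s := Finset.univ.filter fun x : X => Q x)
      (p := P), Finset.filter_filter, Finset.filter_filter]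
    congr 2 <;> ext x <;> simp [and_comm]
  have e3 : (Finset.univ.filter fun x : X => ¬ P x).card =
      (Finset.univ.filter fun x : X => ¬ P x ∧ Q x).card +
      (Finset.univ.filter fun x : X => ¬ P x ∧ ¬ Q x).card := by
    rw [← Finset.card_filter_add_card_filter_not (s := Finset.univ.filter fun x : X => ¬ P x)
      (p := Q), Finset.filter_filter, Finset.filter_filter]
  omega

section Assoc

variable {R : Type u} {R' : Type v} [NonUnitalNonAssocRing R] [NonUnitalNonAssocRing R']

/-- The kernel as a subring. -/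
def ker (f : R →ₙ+* R') : NonUnitalSubring R := (⊥ : NonUnitalSubring R').comap f

theorem mem_ker {f : R →ₙ+* R'} {r : R} : r ∈ ker f ↔ f r = 0 := by
  rw [ker, NonUnitalSubring.mem_comap, NonUnitalSubring.mem_bot]

/-- **The two element argument.** -/
theorem two_element [Finite R] (f : R →ₙ+* R') (S : NonUnitalSubring R) (x y : R)
    (hx : f x ∉ S.map f) (hy : f y ∉ S.map f)
    (htop : ∀ r, f r ∈ (NonUnitalSubring.closure ((S : Set R) ∪ {x, y})).map f) :
    2 * Nat.card {T : NonUnitalSubring R // S ≤ T ∧ x ∈ T} ≤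
      Nat.card {T : NonUnitalSubring R // S ≤ T} ∨
    2 * Nat.card {T : NonUnitalSubring R // S ≤ T ∧ y ∈ T} ≤
      Nat.card {T : NonUnitalSubring R // S ≤ T} := by
  classical
  have hfin : Finite (NonUnitalSubring R) :=
    Finite.of_injective (fun T : NonUnitalSubring R => (T : Set R)) SetLike.coe_injective
  let X := {T : NonUnitalSubring R // S ≤ T}
  have key : ∀ T : NonUnitalSubring R, ∀ r, r ∈ S ⊔ (T ⊓ ker f) → f r ∈ S.map f := by
    intro T r hr
    have h1 : S ⊔ (T ⊓ ker f) ≤ (S.map f).comap f := by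
      refine sup_le ?_ ?_
      · intro s hs
        rw [NonUnitalSubring.mem_comap]
        exact NonUnitalSubring.mem_map.2 ⟨s, hs, rfl⟩
      · intro s hs
        rw [NonUnitalSubring.mem_comap, mem_ker.1 hs.2]
        exact zero_mem _
    exact NonUnitalSubring.mem_comap.1 (h1 hr)
  let φ : {T : X // x ∈ T.1 ∧ y ∈ T.1} → {T : X // ¬ x ∈ T.1 ∧ ¬ y ∈ T.1} := fun T =>
    ⟨⟨S ⊔ (T.1.1 ⊓ ker f), le_sup_left⟩, fun h => hx (key _ _ h), fun h => hy (key _ _ h)⟩
  have half : ∀ T₁ T₂ : NonUnitalSubring R, S ≤ T₁ → S ≤ T₂ → x ∈ T₁ → y ∈ T₁ → x ∈ T₂ → y ∈ T₂ →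
      S ⊔ (T₁ ⊓ ker f) = S ⊔ (T₂ ⊓ ker f) → T₁ ≤ T₂ := by
    intro T₁ T₂ h1 h2 hx1 hy1 hx2 hy2 he t ht
    obtain ⟨w, hw, hwt⟩ := NonUnitalSubring.mem_map.1 (htop t)
    have hw1 : w ∈ T₁ := by
      refine NonUnitalSubring.closure_le.2 ?_ hw
      rintro z (hz | hz)
      · exact h1 hz
      · rcases hz with rfl | hz
        · exact hx1
        · rw [Set.mem_singleton_iff] at hz
          rw [hz]; exact hy1
    have hw2 : w ∈ T₂ := by
      refine NonUnitalSubring.closure_le.2 ?_ hw
      rintro z (hz | hz)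
      · exact h2 hz
      · rcases hz with rfl | hz
        · exact hx2
        · rw [Set.mem_singleton_iff] at hz
          rw [hz]; exact hy2
    have h3 : t - w ∈ S ⊔ (T₁ ⊓ ker f) := by
      refine (le_sup_right : T₁ ⊓ ker f ≤ _) ?_
      exact ⟨sub_mem ht hw1, mem_ker.2 (by rw [map_sub, hwt, sub_self])⟩
    rw [he] at h3
    have h4 : t - w ∈ T₂ := (sup_le h2 inf_le_left : S ⊔ (T₂ ⊓ ker f) ≤ T₂) h3
    have h5 := add_mem h4 hw2
    rwa [sub_add_cancel] at h5
  have hφ : Function.Injective φ := by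
    intro T₁ T₂ h
    have h' : S ⊔ (T₁.1.1 ⊓ ker f) = S ⊔ (T₂.1.1 ⊓ ker f) := congrArg (fun z => z.1.1) h
    apply Subtype.ext
    apply Subtype.ext
    exact le_antisymm
      (half _ _ T₁.1.2 T₂.1.2 T₁.2.1 T₁.2.2 T₂.2.1 T₂.2.2 h')
      (half _ _ T₂.1.2 T₁.1.2 T₂.2.1 T₂.2.2 T₁.2.1 T₁.2.2 h'.symm)
  have h := two_of_inj (X := X) (fun T => x ∈ T.1) (fun T => y ∈ T.1) φ hφ
  have conv : ∀ z : R, Nat.card {T : X // z ∈ T.1} =
      Nat.card {T : NonUnitalSubring R // S ≤ T ∧ z ∈ T} := by
    intro z
    exact Nat.card_congr (Equiv.subtypeSubtypeEquivSubtypeInter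
      (fun T : NonUnitalSubring R => S ≤ T) (fun T => z ∈ T))
  rw [conv x, conv y] at h
  exact h

end Assoc

end Pool.Agent.Q172.UC
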