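import Mathlib

/-!
Union-closed families in which the upper covers of every member have union `U`: the case where every
element lies in at most half of the members.
-/

set_option autoImplicit false

namespace Pool.Agent.Q172.UC.Cov

variable {α : Type*} [DecidableEq α]

/-- an injective selection between finite sets of the same size is onto -/
theorem onto_of_inj {β : Type*} [DecidableEq β] (S T : Finset β) (f : β → β)
    (hf : ∀ x ∈ S, f x ∈ T) (hinj : ∀ x ∈ S, ∀ y ∈ S, f x = f y → x = y) (hc : T.card ≤ S.card) :
    ∀ y ∈ T, ∃ x ∈ S, f x = y := by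
  intro y hy
  have h1 : S.image f ⊆ T := by
    intro z hz
    obtain ⟨x, hx, rfl⟩ := Finset.mem_image.1 hz
    exact hf x hx
  have h2 : (S.image f).card = S.card := Finset.card_image_of_injOn (fun x hx y hy h => hinj x hx y hy h)
  have h3 : S.image f = T := Finset.eq_of_subset_of_card_le h1 (by omega)
  rw [← h3] at hy
  obtain ⟨x, hx, h⟩ := Finset.mem_image.1 hy
  exact ⟨x, hx, h⟩

theorem main (U : Finset α) : ∀ (n : ℕ) (A : Finset (Finset α)) (B : Finset α), A.card ≤ n →
    U ∈ A → (∀ X ∈ A, B ⊆ X ∧ X ⊆ U) → (∀ X ∈ A, ∀ Y ∈ A, X ∪ Y ∈ A) →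
    (∀ x ∈ U, x ∉ B → ∀ y ∈ U, y ∉ B → x ≠ y →
      ∃ X ∈ A, (x ∈ X ∧ y ∉ X) ∨ (x ∉ X ∧ y ∈ X)) →
    (∀ X ∈ A, ∀ i ∈ U, i ∉ X → ∃ W ∈ A, X ⊆ W ∧ i ∈ W ∧
      ∀ Z ∈ A, X ⊆ Z → Z ⊆ W → i ∉ Z → Z = X) →
    (∀ i ∈ U, i ∉ B → (A.filter fun X => i ∈ X).card ≤ (A.filter fun X => i ∉ X).card) →
    ∀ Z, B ⊆ Z → Z ⊆ U → Z ∈ A := by
  intro n
  induction n with
  | zero =>
    intro A B hn hU _ _ _ _ _
    rw [Nat.le_zero, Finset.card_eq_zero] at hn
    rw [hn] at hU
    simp at hU
  | succ n ih =>
    intro A B hn hU hAB huc hsep hcov hhalf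
    choose! W hWA hXW hiW hWm using hcov
    -- the map `X ↦ W X i` is a bijection
    have hsurj : ∀ i ∈ U, i ∉ B → ∀ Y ∈ A, i ∈ Y → ∃ X ∈ A, i ∉ X ∧ W X i = Y := by
      intro i hi hiB Y hY hiY
      obtain ⟨X, hX, h⟩ := onto_of_inj (A.filter fun X => i ∉ X) (A.filter fun X => i ∈ X)
        (fun X => W X i) (by
          intro X hX
          rw [Finset.mem_filter] at hX ⊢
          exact ⟨hWA X hX.1 i hi hX.2, hiW X hX.1 i hi hX.2⟩) (by
          intro X hX X' hX' h
          rw [Finset.mem_filter] at hX hX'
          have h1 := hWm X hX.1 i hi hX.2 (X ∪ X') (huc X hX.1 X' hX'.1) Finset.subset_union_left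
            (Finset.union_subset (hXW X hX.1 i hi hX.2) (by
              have := hXW X' hX'.1 i hi hX'.2
              rw [← h] at this
              exact this)) (by
              rw [Finset.mem_union]; tauto)
          have h2 := hWm X' hX'.1 i hi hX'.2 (X ∪ X') (huc X hX.1 X' hX'.1) Finset.subset_union_right
            (Finset.union_subset (by
              have := hXW X hX.1 i hi hX.2
              rw [h] at this
              exact this) (hXW X' hX'.1 i hi hX'.2)) (by
              rw [Finset.mem_union]; tauto)
          exact h1.symm.trans h2) (hhalf i hi hiB) Y (Finset.mem_filter.2 ⟨hY, hiY⟩)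
      rw [Finset.mem_filter] at hX
      exact ⟨X, hX.1, hX.2, h⟩
    -- `B` is a member
    have hB : B ∈ A := by
      obtain ⟨Y, hY, hmin⟩ := A.exists_min_image (fun Y => Y.card) ⟨U, hU⟩
      by_cases hYB : Y = B
      · rw [← hYB]; exact hY
      exfalso
      have : ∃ i ∈ Y, i ∉ B := by
        by_contra hcon
        push Not at hcon
        exact hYB (Finset.Subset.antisymm hcon (hAB Y hY).1)
      obtain ⟨i, hiY, hiB⟩ := this
      obtain ⟨X, hX, hiX, h⟩ := hsurj i ((hAB Y hY).2 hiY) hiB Y hY hiY
      have h1 : X ⊆ Y := by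
        rw [← h]; exact hXW X hX i ((hAB Y hY).2 hiY) hiX
      have h2 : X ⊂ Y := ⟨h1, fun h3 => hiX (h3 hiY)⟩
      have := Finset.card_lt_card h2
      have := hmin X hX
      omega
    -- every superset of a member other than `B` is a member
    have hup : ∀ X ∈ A, X ≠ B → ∀ Z, X ⊆ Z → Z ⊆ U → Z ∈ A := by
      intro X hX hXB Z hXZ hZU
      have h1 := ih (A.filter fun Y => X ⊆ Y) X (by
          have : A.filter (fun Y => X ⊆ Y) ⊂ A := by
            refine ⟨Finset.filter_subset _ _, fun h => ?_⟩
            have := (Finset.mem_filter.1 (h hB)).2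
            exact hXB (Finset.Subset.antisymm this (hAB X hX).1)
          have := Finset.card_lt_card this
          omega)
        (Finset.mem_filter.2 ⟨hU, (hAB X hX).2⟩)
        (fun Y hY => ⟨(Finset.mem_filter.1 hY).2, (hAB Y (Finset.mem_filter.1 hY).1).2⟩)
        (fun Y hY Y' hY' => by
          rw [Finset.mem_filter] at hY hY' ⊢
          exact ⟨huc Y hY.1 Y' hY'.1, hY.2.trans Finset.subset_union_left⟩)
        (by
          intro x hx hxX y hy hyX hne
          obtain ⟨Y, hY, h⟩ := hsep x hx (fun h => hxX ((hAB X hX).1 h)) y hy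
            (fun h => hyX ((hAB X hX).1 h)) hne
          refine ⟨X ∪ Y, Finset.mem_filter.2 ⟨huc X hX Y hY, Finset.subset_union_left⟩, ?_⟩
          simp only [Finset.mem_union]
          tauto)
        (by
          intro Y hY i hi hiY
          rw [Finset.mem_filter] at hY
          refine ⟨W Y i, Finset.mem_filter.2 ⟨hWA Y hY.1 i hi hiY, hY.2.trans (hXW Y hY.1 i hi hiY)⟩,
            hXW Y hY.1 i hi hiY, hiW Y hY.1 i hi hiY, ?_⟩
          intro Z hZ
          exact hWm Y hY.1 i hi hiY Z (Finset.mem_filter.1 hZ).1)
        (by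
          intro i hi hiX
          have hiB : i ∉ B := fun h => hiX ((hAB X hX).1 h)
          choose! g hg1 hg2 hg3 using hsurj i hi hiB
          refine Finset.card_le_card_of_injOn g ?_ ?_
          · intro Y hY
            rw [Finset.mem_coe, Finset.mem_filter, Finset.mem_filter] at hY
            rw [Finset.mem_coe, Finset.mem_filter, Finset.mem_filter]
            have hgA := hg1 Y hY.1.1 hY.2
            have hgi := hg2 Y hY.1.1 hY.2
            have hgW := hg3 Y hY.1.1 hY.2
            refine ⟨⟨hgA, ?_⟩, hgi⟩
            have h2 := hWm (g Y) hgA i hi hgi (g Y ∪ X) (huc _ hgA X hX) Finset.subset_union_left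
              (Finset.union_subset (hXW _ hgA i hi hgi) (by rw [hgW]; exact hY.1.2))
              (by rw [Finset.mem_union]; tauto)
            rw [← h2]
            exact Finset.subset_union_right
          · intro Y hY Y' hY' h
            rw [Finset.mem_coe, Finset.mem_filter, Finset.mem_filter] at hY hY'
            have h2 := hg3 Y hY.1.1 hY.2
            have h3 := hg3 Y' hY'.1.1 hY'.2
            rw [h] at h2
            exact h2.symm.trans h3)
        Z hXZ hZU
      exact (Finset.mem_filter.1 h1).1
    -- uniqueness of the pivotal place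
    have hpiv : ∀ i ∈ U, i ∉ B → ∀ T ∈ A, ∀ T' ∈ A, i ∈ T → i ∈ T' →
        (T.erase i ∈ A → T.erase i = B) → (T'.erase i ∈ A → T'.erase i = B) → T = T' := by
      intro i hi hiB T hT T' hT' hiT hiT' hp hp'
      by_contra hne
      have h1 : ((A.filter fun X => i ∉ X).erase B).card ≤
          (((A.filter fun X => i ∈ X).erase T).erase T').card := by
        refine Finset.card_le_card_of_injOn (fun X => insert i X) ?_ ?_
        · intro X hX
          rw [Finset.mem_coe, Finset.mem_erase, Finset.mem_filter] at hX
          rw [Finset.mem_coe, Finset.mem_erase, Finset.mem_erase, Finset.mem_filter]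
          have e : (insert i X).erase i = X := Finset.erase_insert hX.2.2
          refine ⟨?_, ?_, ?_, Finset.mem_insert_self _ _⟩
          · intro h
            have h' : insert i X = T' := h
            rw [h'] at e
            exact hX.1 (e.symm.trans (hp' (e ▸ hX.2.1)))
          · intro h
            have h' : insert i X = T := h
            rw [h'] at e
            exact hX.1 (e.symm.trans (hp (e ▸ hX.2.1)))
          · exact hup X hX.2.1 hX.1 _ (Finset.subset_insert _ _)
              (Finset.insert_subset hi (hAB X hX.2.1).2)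
        · intro X hX Y hY h
          rw [Finset.mem_coe, Finset.mem_erase, Finset.mem_filter] at hX hY
          have h' : insert i X = insert i Y := h
          rw [← Finset.erase_insert hX.2.2, ← Finset.erase_insert hY.2.2, h']
      rw [Finset.card_erase_of_mem (Finset.mem_filter.2 ⟨hB, hiB⟩),
        Finset.card_erase_of_mem (Finset.mem_erase.2 ⟨fun h => hne h.symm,
          Finset.mem_filter.2 ⟨hT', hiT'⟩⟩),
        Finset.card_erase_of_mem (Finset.mem_filter.2 ⟨hT, hiT⟩)] at h1
      have h2 := hhalf i hi hiB
      have h3 : 2 ≤ (A.filter fun X => i ∈ X).card := by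
        rw [Nat.succ_le_iff, Finset.one_lt_card]
        exact ⟨T, Finset.mem_filter.2 ⟨hT, hiT⟩, T', Finset.mem_filter.2 ⟨hT', hiT'⟩, hne⟩
      omega
    -- the sets `insert i B` are members
    have hsing : ∀ i ∈ U, i ∉ B → insert i B ∈ A := by
      intro i hi hiB
      have hW1 := hWA B hB i hi hiB
      have hW2 := hiW B hB i hi hiB
      have hW3 := hWm B hB i hi hiB
      obtain ⟨T, hT, hmin⟩ := (A.filter fun Y => Y ≠ B ∧ Y ⊆ W B i).exists_min_image
        (fun Y => Y.card) ⟨W B i, Finset.mem_filter.2 ⟨hW1, fun h => hiB (h ▸ hW2), subset_rfl⟩⟩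
      rw [Finset.mem_filter] at hT
      obtain ⟨hTA, hTB, hTW⟩ := hT
      have hiT : i ∈ T := by
        by_contra h
        exact hTB (hW3 T hTA (hAB T hTA).1 hTW h)
      have herase : ∀ j ∈ T, T.erase j ∈ A → T.erase j = B := by
        intro j hj h
        by_contra hne
        have := hmin (T.erase j) (Finset.mem_filter.2 ⟨h, hne, (Finset.erase_subset _ _).trans hTW⟩)
        have := Finset.card_erase_lt_of_mem hj
        omega
      by_cases hTi : T = insert i B
      · rw [← hTi]; exact hTA
      exfalso
      have hj : ∃ j ∈ T, j ∉ B ∧ j ≠ i := by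
        by_contra hcon
        push Not at hcon
        apply hTi
        apply Finset.Subset.antisymm
        · intro j hj
          by_cases hjB : j ∈ B
          · exact Finset.mem_insert_of_mem hjB
          · rw [hcon j hj hjB]; exact Finset.mem_insert_self _ _
        · exact Finset.insert_subset hiT (hAB T hTA).1
      obtain ⟨j, hjT, hjB, hji⟩ := hj
      by_cases hTU : T = U
      · -- `A = {B, U}` is not separating
        obtain ⟨X, hX, h⟩ := hsep i hi hiB j ((hAB T hTA).2 hjT) hjB (fun h => hji h.symm)
        have hXB : X ≠ B := by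
          rintro rfl
          tauto
        have h1 := hmin X (Finset.mem_filter.2 ⟨hX, hXB, (hAB X hX).2.trans (hTU ▸ hTW)⟩)
        have h2 : X = U := Finset.eq_of_subset_of_card_le (hAB X hX).2 (hTU ▸ h1)
        subst h2
        rcases h with h | h
        · exact h.2 (hTU ▸ hjT)
        · exact h.1 hi
      · have hk : ∃ k ∈ U, k ∉ T := by
          by_contra hcon
          push Not at hcon
          exact hTU (Finset.Subset.antisymm (hAB T hTA).2 hcon)
        obtain ⟨k, hkU, hkT⟩ := hk
        have hkB : k ∉ B := fun h => hkT ((hAB T hTA).1 h)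
        have key : ∀ l ∈ T, l ∉ B → insert k (T.erase l) ∈ A ∧
            ((insert k (T.erase l)).erase k ∈ A → (insert k (T.erase l)).erase k = B) := by
          intro l hl hlB
          have hlk : l ≠ k := fun h => hkT (h ▸ hl)
          have h0 : insert k T ∈ A := hup T hTA hTB _ (Finset.subset_insert _ _)
            (Finset.insert_subset hkU (hAB T hTA).2)
          have e1 : (insert k T).erase l = insert k (T.erase l) :=
            Finset.erase_insert_of_ne (fun h => hlk h.symm)
          have h1 : insert k (T.erase l) ∈ A := by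
            by_contra hcon
            have h2 := hpiv l ((hAB T hTA).2 hl) hlB T hTA (insert k T) h0 hl
              (Finset.mem_insert_of_mem hl) (herase l hl) (fun h => absurd (e1 ▸ h) hcon)
            exact hkT (h2 ▸ Finset.mem_insert_self k T)
          refine ⟨h1, ?_⟩
          have e2 : (insert k (T.erase l)).erase k = T.erase l :=
            Finset.erase_insert (fun h => hkT (Finset.mem_of_mem_erase h))
          rw [e2]
          exact herase l hl
        obtain ⟨a1, a2⟩ := key i hiT hiB
        obtain ⟨b1, b2⟩ := key j hjT hjB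
        have h3 := hpiv k hkU hkB _ a1 _ b1 (Finset.mem_insert_self _ _)
          (Finset.mem_insert_self _ _) a2 b2
        have h4 : j ∈ insert k (T.erase i) :=
          Finset.mem_insert_of_mem (Finset.mem_erase.2 ⟨hji, hjT⟩)
        rw [h3, Finset.mem_insert, Finset.mem_erase] at h4
        rcases h4 with h4 | h4
        · exact hkT (h4 ▸ hjT)
        · exact h4.1 rfl
    intro Z hBZ hZU
    by_cases hZB : Z = B
    · rw [hZB]; exact hB
    have : ∃ i ∈ Z, i ∉ B := by
      by_contra hcon
      push Not at hcon
      exact hZB (Finset.Subset.antisymm hcon hBZ)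
    obtain ⟨i, hiZ, hiB⟩ := this
    exact hup (insert i B) (hsing i (hZU hiZ) hiB)
      (fun h => hiB (h ▸ Finset.mem_insert_self i B)) Z (Finset.insert_subset hiZ hBZ) hZU

end Pool.Agent.Q172.UC.Cov
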