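import Pool.Agent.Q172.UC.Pre

/-!
Convex subsets of a finite set of Boolean vectors closed under majority.
-/

set_option autoImplicit false

namespace Pool.Agent.Q172.UC.Med

universe u

variable {ι : Type u}

/-- majority of three bits -/
def maj (a b c : Bool) : Bool := (a && b) || (b && c) || (c && a)

/-- `z` is between `x` and `y` -/
def Btw (x z y : ι → Bool) : Prop := ∀ i, z i = x i ∨ z i = y i

/-- `M` is closed under the coordinatewise majority -/
def MajClosed (M : Set (ι → Bool)) : Prop :=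
  ∀ x ∈ M, ∀ y ∈ M, ∀ z ∈ M, (fun i => maj (x i) (y i) (z i)) ∈ M

/-- `C` is a convex subset of `M` -/
def Conv (M C : Set (ι → Bool)) : Prop :=
  C ⊆ M ∧ ∀ x ∈ C, ∀ y ∈ C, ∀ z ∈ M, Btw x z y → z ∈ C

theorem gate {M C : Set (ι → Bool)} (hf : M.Finite) (hM : MajClosed M) (hC : Conv M C)
    (hne : C.Nonempty) {x : ι → Bool} (hx : x ∈ M) : ∃ w ∈ C, ∀ u ∈ C, Btw x w u := by
  obtain ⟨w, hw, hmin⟩ := Set.exists_min_image C (fun w => {u | u ∈ M ∧ Btw x u w}.ncard)
    (hf.subset hC.1) hne
  refine ⟨w, hw, fun u hu => ?_⟩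
  have hm : (fun i => maj (x i) (w i) (u i)) ∈ M := hM x hx w (hC.1 hw) u (hC.1 hu)
  have hmC : (fun i => maj (x i) (w i) (u i)) ∈ C := by
    refine hC.2 w hw u hu _ hm fun i => ?_
    rcases Bool.eq_false_or_eq_true (x i) with h | h <;>
      rcases Bool.eq_false_or_eq_true (w i) with h' | h' <;>
      rcases Bool.eq_false_or_eq_true (u i) with h'' | h'' <;> simp [maj, h, h', h'']
  have h1 := hmin _ hmC
  have hfin : {v | v ∈ M ∧ Btw x v w}.Finite := hf.subset fun v hv => hv.1
  have hsub : {v | v ∈ M ∧ Btw x v (fun i => maj (x i) (w i) (u i))} ⊆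
      {v | v ∈ M ∧ Btw x v w} := by
    rintro v ⟨hv, hb⟩
    refine ⟨hv, fun i => ?_⟩
    have := hb i
    rcases Bool.eq_false_or_eq_true (x i) with h | h <;>
      rcases Bool.eq_false_or_eq_true (w i) with h' | h' <;>
      rcases Bool.eq_false_or_eq_true (u i) with h'' | h'' <;>
      rcases Bool.eq_false_or_eq_true (v i) with h3 | h3 <;> simp_all [maj]
  have heq := Set.eq_of_subset_of_ncard_le hsub h1 hfin
  have hw2 : w ∈ {v | v ∈ M ∧ Btw x v w} := ⟨hC.1 hw, fun i => Or.inr rfl⟩
  rw [← heq] at hw2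
  intro i
  have := hw2.2 i
  rcases Bool.eq_false_or_eq_true (x i) with h | h <;>
    rcases Bool.eq_false_or_eq_true (w i) with h' | h' <;>
    rcases Bool.eq_false_or_eq_true (u i) with h'' | h'' <;> simp_all [maj]

/-- half space -/
def Hs (M : Set (ι → Bool)) (i : ι) (e : Bool) : Set (ι → Bool) := {z | z ∈ M ∧ z i = e}

theorem conv_hs (M : Set (ι → Bool)) (i : ι) (e : Bool) : Conv M (Hs M i e) := by
  refine ⟨fun z hz => hz.1, fun x hx y hy z hz hb => ⟨hz, ?_⟩⟩
  rcases hb i with h | h
  · rw [h]; exact hx.2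
  · rw [h]; exact hy.2

theorem conv_inter {M C D : Set (ι → Bool)} (hC : Conv M C) (hD : Conv M D) : Conv M (C ∩ D) :=
  ⟨fun _ hz => hC.1 hz.1, fun x hx y hy z hz hb =>
    ⟨hC.2 x hx.1 y hy.1 z hz hb, hD.2 x hx.2 y hy.2 z hz hb⟩⟩

theorem sdiff_hs {M C : Set (ι → Bool)} (hC : Conv M C) (i : ι) (e : Bool) :
    C \ Hs M i e = C ∩ Hs M i (!e) := by
  ext z
  simp only [Hs, Set.mem_sdiff, Set.mem_ofPred_eq, Set.mem_inter_iff, not_and]
  constructor
  · rintro ⟨h1, h2⟩
    refine ⟨h1, hC.1 h1, ?_⟩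
    have := h2 (hC.1 h1)
    revert this
    cases z i <;> cases e <;> simp
  · rintro ⟨h1, _, h2⟩
    refine ⟨h1, fun _ => ?_⟩
    rw [h2]
    cases e <;> simp

theorem conv_trans {M C D : Set (ι → Bool)} (hC : Conv M C) (hD : Conv C D) : Conv M D :=
  ⟨fun _ hz => hC.1 (hD.1 hz), fun x hx y hy z hz hb =>
    hD.2 x hx y hy z (hC.2 x (hD.1 hx) y (hD.1 hy) z hz hb) hb⟩

theorem conv_restrict {M C D : Set (ι → Bool)} (hC : Conv M C) (hD : Conv M D) (h : D ⊆ C) :
    Conv C D := ⟨h, fun x hx y hy z hz hb => hD.2 x hx y hy z (hC.1 hz) hb⟩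

theorem maj_conv {M C : Set (ι → Bool)} (hM : MajClosed M) (hC : Conv M C) : MajClosed C := by
  intro x hx y hy z hz
  refine hC.2 x hx y hy _ (hM x (hC.1 hx) y (hC.1 hy) z (hC.1 hz)) fun i => ?_
  rcases Bool.eq_false_or_eq_true (x i) with h | h <;>
    rcases Bool.eq_false_or_eq_true (y i) with h' | h' <;>
    rcases Bool.eq_false_or_eq_true (z i) with h'' | h'' <;> simp [maj, h, h', h'']

/-- the key: two convex sets that contain `v ∈ H`, meet the complement of the minimal half space
`H` and agree there, are equal -/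
theorem key {M : Set (ι → Bool)} (hf : M.Finite) (hM : MajClosed M) {i : ι} {e : Bool}
    (hmin : ∀ j d, (Hs M j d).Nonempty → Hs M j d ⊆ Hs M i e → Hs M j d = Hs M i e)
    {v : ι → Bool} (hv : v ∈ Hs M i e) {C D : Set (ι → Bool)} (hC : Conv M C) (hD : Conv M D)
    (hvD : v ∈ D) (hCn : (C \ Hs M i e).Nonempty)
    (h : C \ Hs M i e = D \ Hs M i e) : C ⊆ D := by
  intro x hx
  by_cases hxH : x ∈ Hs M i e
  · obtain ⟨u0, hu0⟩ := hCn
    have hu0' := hu0
    rw [sdiff_hs hC] at hu0'
    obtain ⟨w, hw, hgate⟩ := gate hf hM (conv_hs M i (!e)) ⟨u0, hu0'.2⟩ (hC.1 hx)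
    have hwC : w ∈ C := hC.2 x hx u0 hu0.1 w hw.1 (hgate u0 hu0'.2)
    have hwD : w ∈ D := by
      have h1 : w ∈ C \ Hs M i e := by
        rw [sdiff_hs hC]
        exact ⟨hwC, hw⟩
      rw [h] at h1
      exact h1.1
    refine hD.2 w hwD v hvD x (hC.1 hx) fun j => ?_
    by_cases hj : x j = w j
    · exact Or.inl hj
    · right
      have hsub : Hs M j (x j) ⊆ Hs M i e := by
        intro u hu
        refine ⟨hu.1, ?_⟩
        by_contra hue
        have h1 : u ∈ Hs M i (!e) := ⟨hu.1, by
          revert hue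
          cases u i <;> cases e <;> simp⟩
        rcases hgate u h1 j with h2 | h2
        · exact hj h2.symm
        · rw [hu.2] at h2
          exact hj h2.symm
      have heq := hmin j (x j) ⟨x, hC.1 hx, rfl⟩ hsub
      rw [← heq] at hv
      exact hv.2.symm
  · have h1 : x ∈ C \ Hs M i e := ⟨hx, hxH⟩
    rw [h] at h1
    exact h1.1

theorem main_inj (n : ℕ) : ∀ (M : Set (ι → Bool)), M.Finite → M.ncard ≤ n → MajClosed M →
    ∀ C0, Conv M C0 → C0 ≠ M → ∃ v ∈ M, v ∉ C0 ∧ ∃ f : Set (ι → Bool) → Set (ι → Bool),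
      (∀ C, Conv M C → C0 ⊆ C → v ∈ C → Conv M (f C) ∧ C0 ⊆ f C ∧ v ∉ f C) ∧
      ∀ C D, Conv M C → C0 ⊆ C → v ∈ C → Conv M D → C0 ⊆ D → v ∈ D → f C = f D → C = D := by
  classical
  induction n with
  | zero =>
    intro M hf hn _ C0 hC0 hne
    exfalso
    have h0 : M = ∅ := by
      rw [← Set.ncard_eq_zero hf]
      omega
    subst h0
    exact hne (Set.subset_eq_empty hC0.1 rfl)
  | succ n ih =>
    intro M hf hn hM C0 hC0 hne
    -- the finite set of half spaces is a set of subsets of `M`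
    have hfs : {H : Set (ι → Bool) | H ⊆ M}.Finite := hf.finite_subsets
    rcases Set.eq_empty_or_nonempty C0 with h0 | h0
    · subst h0
      have hMne : M.Nonempty := by
        rw [Set.nonempty_iff_ne_empty]
        exact fun h => hne h.symm
      by_cases hsub : M.Subsingleton
      · obtain ⟨p, hp⟩ := hMne
        have hMp : M = {p} := hsub.eq_singleton_of_mem hp
        refine ⟨p, hp, fun h => h, fun _ => ∅, fun C _ _ _ => ⟨⟨Set.empty_subset _, ?_⟩,
          fun _ h => h, fun h => h⟩, fun C D hC _ hpC hD _ hpD _ => ?_⟩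
        · intro x hx
          exact hx.elim
        · have h1 : ∀ E, Conv M E → p ∈ E → E = {p} := by
            intro E hE hpE
            apply Set.Subset.antisymm
            · rw [← hMp]; exact hE.1
            · simpa using hpE
          rw [h1 C hC hpC, h1 D hD hpD]
      · rw [Set.not_subsingleton_iff] at hsub
        obtain ⟨x, hx, y, hy, hxy⟩ := hsub
        obtain ⟨i0, hi0⟩ := Function.ne_iff.1 hxy
        have hfs2 : {H : Set (ι → Bool) | ∃ i e, H = Hs M i e ∧ H.Nonempty ∧ (M \ H).Nonempty}.Finite := by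
          refine hfs.subset ?_
          rintro H ⟨i, e, rfl, -, -⟩
          exact fun z hz => hz.1
        obtain ⟨H, ⟨i, e, hH, hHn, hHc⟩, hmin⟩ := Set.exists_min_image _ Set.ncard hfs2
          ⟨Hs M i0 (x i0), i0, x i0, rfl, ⟨x, hx, rfl⟩, ⟨y, hy, fun h => hi0 h.2.symm⟩⟩
        subst hH
        have hmin' : ∀ j d, (Hs M j d).Nonempty → Hs M j d ⊆ Hs M i e → Hs M j d = Hs M i e := by
          intro j d h1 h2
          refine Set.eq_of_subset_of_ncard_le h2 (hmin _ ⟨j, d, rfl, h1, ?_⟩)
            (hf.subset fun z hz => hz.1)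
          obtain ⟨z, hz⟩ := hHc
          exact ⟨z, hz.1, fun h => hz.2 (h2 h)⟩
        have hHM : Conv M (Hs M i e) := conv_hs M i e
        have hlt : (Hs M i e).ncard < M.ncard := by
          refine Set.ncard_lt_ncard ⟨hHM.1, fun h => ?_⟩ hf
          obtain ⟨z, hz⟩ := hHc
          exact hz.2 (h hz.1)
        obtain ⟨v, hv, -, g, hg1, hg2⟩ := ih (Hs M i e) (hf.subset hHM.1) (by omega)
          (maj_conv hM hHM) ∅ ⟨Set.empty_subset _, fun x hx => hx.elim⟩ hHn.ne_empty.symm
        refine ⟨v, hHM.1 hv, fun h => h, fun C => if C ⊆ Hs M i e then g C else C \ Hs M i e,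
          ?_, ?_⟩
        · intro C hC _ hvC
          by_cases hCH : C ⊆ Hs M i e
          · simp only [hCH, if_true]
            obtain ⟨h1, _, h3⟩ := hg1 C (conv_restrict hHM hC hCH) (Set.empty_subset _) hvC
            exact ⟨conv_trans hHM h1, Set.empty_subset _, h3⟩
          · simp only [hCH, if_false]
            refine ⟨?_, Set.empty_subset _, fun h => h.2 hv⟩
            rw [sdiff_hs hC]
            exact conv_inter hC (conv_hs M i _)
        · intro C D hC _ hvC hD _ hvD h
          by_cases hCH : C ⊆ Hs M i e <;> by_cases hDH : D ⊆ Hs M i e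
          · simp only [hCH, hDH, if_true] at h
            exact hg2 C D (conv_restrict hHM hC hCH) (Set.empty_subset _) hvC
              (conv_restrict hHM hD hDH) (Set.empty_subset _) hvD h
          · exfalso
            simp only [hCH, hDH, if_true, if_false] at h
            obtain ⟨h1, _, _⟩ := hg1 C (conv_restrict hHM hC hCH) (Set.empty_subset _) hvC
            rw [Set.not_subset] at hDH
            obtain ⟨z, hz, hz2⟩ := hDH
            have h2 : z ∈ D \ Hs M i e := ⟨hz, hz2⟩
            rw [← h] at h2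
            exact hz2 (h1.1 h2)
          · exfalso
            simp only [hCH, hDH, if_true, if_false] at h
            obtain ⟨h1, _, _⟩ := hg1 D (conv_restrict hHM hD hDH) (Set.empty_subset _) hvD
            rw [Set.not_subset] at hCH
            obtain ⟨z, hz, hz2⟩ := hCH
            have h2 : z ∈ C \ Hs M i e := ⟨hz, hz2⟩
            rw [h] at h2
            exact hz2 (h1.1 h2)
          · simp only [hCH, hDH, if_false] at h
            have nC : (C \ Hs M i e).Nonempty := by
              obtain ⟨z, hz, hz2⟩ := Set.not_subset.1 hCH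
              exact ⟨z, hz, hz2⟩
            have nD : (D \ Hs M i e).Nonempty := by
              obtain ⟨z, hz, hz2⟩ := Set.not_subset.1 hDH
              exact ⟨z, hz, hz2⟩
            exact Set.Subset.antisymm (key hf hM hmin' hv hC hD hvD nC h)
              (key hf hM hmin' hv hD hC hvC nD h.symm)
    · -- `C0` is not empty
      obtain ⟨x, hx, hx0⟩ : ∃ x ∈ M, x ∉ C0 := by
        by_contra hcon
        push Not at hcon
        exact hne (Set.Subset.antisymm hC0.1 hcon)
      obtain ⟨w, hw, hgate⟩ := gate hf hM hC0 h0 hx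
      have hxw : x ≠ w := fun h => hx0 (h ▸ hw)
      obtain ⟨j0, hj0⟩ := Function.ne_iff.1 hxw
      have hfs2 : {H : Set (ι → Bool) | ∃ i e, H = Hs M i e ∧ H.Nonempty ∧ Disjoint C0 H}.Finite := by
        refine hfs.subset ?_
        rintro H ⟨i, e, rfl, -, -⟩
        exact fun z hz => hz.1
      obtain ⟨H, ⟨i, e, hH, hHn, hHd⟩, hmin⟩ := Set.exists_min_image _ Set.ncard hfs2
        ⟨Hs M j0 (x j0), j0, x j0, rfl, ⟨x, hx, rfl⟩, by
          rw [Set.disjoint_left]
          intro u hu hu2
          rcases hgate u hu j0 with h | h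
          · exact hj0 h.symm
          · rw [hu2.2] at h
            exact hj0 h.symm⟩
      subst hH
      have hmin' : ∀ j d, (Hs M j d).Nonempty → Hs M j d ⊆ Hs M i e → Hs M j d = Hs M i e := by
        intro j d h1 h2
        exact Set.eq_of_subset_of_ncard_le h2 (hmin _ ⟨j, d, rfl, h1, hHd.mono_right h2⟩)
          (hf.subset fun z hz => hz.1)
      obtain ⟨v, hv⟩ := hHn
      obtain ⟨c, hc⟩ := h0
      refine ⟨v, hv.1, fun h => Set.disjoint_left.1 hHd h hv, fun C => C \ Hs M i e, ?_, ?_⟩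
      · intro C hC h0C hvC
        refine ⟨?_, fun z hz => ⟨h0C hz, fun h => Set.disjoint_left.1 hHd hz h⟩, fun h => h.2 hv⟩
        beta_reduce
        rw [sdiff_hs hC]
        exact conv_inter hC (conv_hs M i _)
      · intro C D hC h0C hvC hD h0D hvD h
        have nC : ∀ E, C0 ⊆ E → (E \ Hs M i e).Nonempty := fun E hE =>
          ⟨c, hE hc, fun h => Set.disjoint_left.1 hHd hc h⟩
        exact Set.Subset.antisymm (key hf hM hmin' hv hC hD hvD (nC C h0C) h)
          (key hf hM hmin' hv hD hC hvC (nC D h0D) h.symm)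

end Pool.Agent.Q172.UC.Med
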