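import Pool.Agent.Q172.UC.Median

/-!
Convex subsets of a finite set of Boolean vectors closed under majority: the strict form.
-/

set_option autoImplicit false

namespace Pool.Agent.Q172.UC.Med

universe u

variable {ι : Type u}

theorem one_of_inj_strict {X : Type*} [Finite X] (P : X → Prop)
    (φ : {x : X // P x} → {x : X // ¬ P x}) (hφ : Function.Injective φ)
    (y : {x : X // ¬ P x}) (hy : ∀ x, φ x ≠ y) :
    2 * Nat.card {x : X // P x} < Nat.card X := by
  classical
  have := Fintype.ofFinite X
  have h1 : Fintype.card {x : X // P x} < Fintype.card {x : X // ¬ P x} :=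
    Fintype.card_lt_of_injective_of_notMem φ hφ (b := y) (by
      rintro ⟨x, hx⟩
      exact hy x hx)
  have h2 := Fintype.card_subtype_compl P
  have h3 : Fintype.card {x : X // P x} ≤ Fintype.card X := Fintype.card_subtype_le P
  rw [Nat.card_eq_fintype_card, Nat.card_eq_fintype_card]
  omega

theorem not_hs {M : Set (ι → Bool)} {i : ι} {e : Bool} {u : ι → Bool} (hu : u ∈ M)
    (h : u ∉ Hs M i e) : u ∈ Hs M i (!e) := by
  refine ⟨hu, ?_⟩
  have h1 : u i ≠ e := fun h' => h ⟨hu, h'⟩
  revert h1
  cases u i <;> cases e <;> simp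

theorem hs_not {M : Set (ι → Bool)} {i : ι} {e : Bool} {u : ι → Bool}
    (h : u ∈ Hs M i (!e)) : u ∉ Hs M i e := by
  intro h'
  have h1 := h.2
  rw [h'.2] at h1
  revert h1
  cases e <;> simp

/-- the gate of the gate -/
theorem dual {M : Set (ι → Bool)} {i : ι} {e : Bool}
    (hmin : ∀ j d, (Hs M j d).Nonempty → Hs M j d ⊆ Hs M i e → Hs M j d = Hs M i e)
    {v x w : ι → Bool} (hv : v ∈ Hs M i e) (hx : x ∈ Hs M i e)
    (hgate : ∀ u ∈ Hs M i (!e), Btw x w u) : Btw w x v := by
  intro j
  by_cases hj : x j = w j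
  · exact Or.inl hj
  · right
    have hsub : Hs M j (x j) ⊆ Hs M i e := by
      intro u hu
      by_contra hue
      rcases hgate u (not_hs hu.1 hue) j with h2 | h2
      · exact hj h2.symm
      · rw [hu.2] at h2
        exact hj h2.symm
    have heq := hmin j (x j) ⟨x, hx.1, rfl⟩ hsub
    rw [← heq] at hv
    exact hv.2.symm

theorem strict (M : Set (ι → Bool)) (hf : M.Finite) (hM : MajClosed M) (C0 : Set (ι → Bool))
    (hC0 : Conv M C0) (hne : C0 ≠ M) :
    (∀ C, Conv M C → C0 ⊆ C → Conv M ((M \ C) ∪ C0)) ∨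
    ∃ v ∈ M, v ∉ C0 ∧ (∃ f : Set (ι → Bool) → Set (ι → Bool),
      (∀ C, Conv M C → C0 ⊆ C → v ∈ C → Conv M (f C) ∧ C0 ⊆ f C ∧ v ∉ f C) ∧
      (∀ C D, Conv M C → C0 ⊆ C → v ∈ C → Conv M D → C0 ⊆ D → v ∈ D → f C = f D → C = D) ∧
      ∃ E, Conv M E ∧ C0 ⊆ E ∧ v ∉ E ∧ ∀ C, Conv M C → C0 ⊆ C → v ∈ C → f C ≠ E) := by
  classical
  have hfs : {H : Set (ι → Bool) | H ⊆ M}.Finite := hf.finite_subsets
  rcases Set.eq_empty_or_nonempty C0 with h0 | h0
  · subst h0
    by_cases hcard : M.ncard ≤ 2
    · left
      intro C hC _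
      rw [Set.union_empty]
      refine ⟨Set.sdiff_subset, fun x hx y hy z hz hb => ?_⟩
      by_cases hxy : x = y
      · subst hxy
        have : z = x := funext fun i => by rcases hb i with h | h <;> exact h
        rw [this]; exact hx
      · have h1 : ({x, y} : Set (ι → Bool)) = M := by
          refine Set.eq_of_subset_of_ncard_le ?_ ?_ hf
          · intro u hu
            rcases hu with rfl | rfl
            · exact hx.1
            · exact hy.1
          · rw [Set.ncard_pair hxy]; exact hcard
        rw [← h1] at hz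
        rcases hz with rfl | rfl
        · exact hx
        · exact hy
    · right
      push Not at hcard
      have hsub : ¬ M.Subsingleton := by
        intro h
        have := (Set.ncard_le_one hf).2 fun a ha b hb => h ha hb
        omega
      rw [Set.not_subsingleton_iff] at hsub
      obtain ⟨x, hx, y, hy, hxy⟩ := hsub
      obtain ⟨i0, hi0⟩ := Function.ne_iff.1 hxy
      have hfs2 : {H : Set (ι → Bool) | ∃ i e, H = Hs M i e ∧ H.Nonempty ∧ (M \ H).Nonempty}.Finite := by
        refine hfs.subset ?_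
        rintro H ⟨i, e, rfl, -, -⟩
        exact fun z hz => hz.1
      obtain ⟨H, ⟨i, e, hH, hHn, hHc⟩, hmin⟩ := Set.exists_min_image _ Set.ncard hfs2
        ⟨Hs M i0 (x i0), i0, x i0, rfl, ⟨x, hx, rfl⟩, ⟨y, hy, fun h => hi0 h.2.symm⟩⟩
      subst hH
      have hmin' : ∀ j d, (Hs M j d).Nonempty → Hs M j d ⊆ Hs M i e → Hs M j d = Hs M i e := by
        intro j d h1 h2
        refine Set.eq_of_subset_of_ncard_le h2 (hmin _ ⟨j, d, rfl, h1, ?_⟩)
          (hf.subset fun z hz => hz.1)
        obtain ⟨z, hz⟩ := hHc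
        exact ⟨z, hz.1, fun h => hz.2 (h2 h)⟩
      have hHM : Conv M (Hs M i e) := conv_hs M i e
      obtain ⟨v, hv, -, g, hg1, hg2⟩ := main_inj (Hs M i e).ncard (Hs M i e) (hf.subset hHM.1)
        le_rfl (maj_conv hM hHM) ∅ ⟨Set.empty_subset _, fun x hx => hx.elim⟩ hHn.ne_empty.symm
      -- the other side is not smaller
      have hcompl : (Hs M i e).ncard ≤ (Hs M i (!e)).ncard := by
        obtain ⟨z, hz⟩ := hHc
        obtain ⟨t, ht⟩ := hHn
        exact hmin _ ⟨i, !e, rfl, ⟨z, not_hs hz.1 hz.2⟩, ⟨t, ht.1, fun h => hs_not h ht⟩⟩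
      have hadd : (Hs M i e).ncard + (Hs M i (!e)).ncard = M.ncard := by
        rw [← Set.ncard_union_eq ?_ (hf.subset fun z hz => hz.1) (hf.subset fun z hz => hz.1)]
        · congr 1
          ext z
          constructor
          · rintro (h | h) <;> exact h.1
          · intro h
            by_cases h' : z ∈ Hs M i e
            · exact Or.inl h'
            · exact Or.inr (not_hs h h')
        · rw [Set.disjoint_left]
          exact fun z hz hz' => hs_not hz' hz
      have h2 : 1 < (Hs M i (!e)).ncard := by omega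
      rw [Set.one_lt_ncard (hf.subset fun z hz => hz.1)] at h2
      obtain ⟨v', hv', hgate⟩ := gate hf hM (conv_hs M i (!e)) (by
        obtain ⟨a, ha, _⟩ := h2
        exact ⟨a, ha⟩) (hHM.1 hv)
      obtain ⟨w, hw, hwv⟩ : ∃ w ∈ Hs M i (!e), w ≠ v' := by
        obtain ⟨a, ha, b, hb, hab⟩ := h2
        by_cases h : a = v'
        · exact ⟨b, hb, fun h' => hab (h.trans h'.symm)⟩
        · exact ⟨a, ha, h⟩
      refine ⟨v, hHM.1 hv, fun h => h, fun C => if C ⊆ Hs M i e then g C else C \ Hs M i e,
        ?_, ?_, {w}, ?_, Set.empty_subset _, ?_, ?_⟩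
      · intro C hC _ hvC
        by_cases hCH : C ⊆ Hs M i e
        · simp only [hCH, if_true]
          obtain ⟨h1, _, h3⟩ := hg1 C (conv_restrict hHM hC hCH) (Set.empty_subset _) hvC
          exact ⟨conv_trans hHM h1, Set.empty_subset _, h3⟩
        · simp only [hCH, if_false]
          refine ⟨?_, Set.empty_subset _, fun h => h.2 hv⟩
          rw [sdiff_hs hC]
          exact conv_inter hC (conv_hs M i _)
      · intro C D hC _ hvC hD _ hvD h
        by_cases hCH : C ⊆ Hs M i e <;> by_cases hDH : D ⊆ Hs M i e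
        · simp only [hCH, hDH, if_true] at h
          exact hg2 C D (conv_restrict hHM hC hCH) (Set.empty_subset _) hvC
            (conv_restrict hHM hD hDH) (Set.empty_subset _) hvD h
        · exfalso
          simp only [hCH, hDH, if_true, if_false] at h
          obtain ⟨h1, _, _⟩ := hg1 C (conv_restrict hHM hC hCH) (Set.empty_subset _) hvC
          rw [Set.not_subset] at hDH
          obtain ⟨z, hz, hz2⟩ := hDH
          have h2 : z ∈ D \ Hs M i e := ⟨hz, hz2⟩
          rw [← h] at h2
          exact hz2 (h1.1 h2)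
        · exfalso
          simp only [hCH, hDH, if_true, if_false] at h
          obtain ⟨h1, _, _⟩ := hg1 D (conv_restrict hHM hD hDH) (Set.empty_subset _) hvD
          rw [Set.not_subset] at hCH
          obtain ⟨z, hz, hz2⟩ := hCH
          have h2 : z ∈ C \ Hs M i e := ⟨hz, hz2⟩
          rw [h] at h2
          exact hz2 (h1.1 h2)
        · simp only [hCH, hDH, if_false] at h
          have nC : (C \ Hs M i e).Nonempty := by
            obtain ⟨z, hz, hz2⟩ := Set.not_subset.1 hCH
            exact ⟨z, hz, hz2⟩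
          have nD : (D \ Hs M i e).Nonempty := by
            obtain ⟨z, hz, hz2⟩ := Set.not_subset.1 hDH
            exact ⟨z, hz, hz2⟩
          exact Set.Subset.antisymm (key hf hM hmin' hv hC hD hvD nC h)
            (key hf hM hmin' hv hD hC hvC nD h.symm)
      · refine ⟨by simpa using hw.1, fun a ha b hb z _ hb' => ?_⟩
        rw [Set.mem_singleton_iff] at ha hb ⊢
        subst ha; subst hb
        exact funext fun i => by rcases hb' i with h | h <;> exact h
      · intro h
        rw [Set.mem_singleton_iff] at h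
        rw [h] at hv
        exact hs_not hw hv
      · intro C hC _ hvC
        by_cases hCH : C ⊆ Hs M i e
        · simp only [hCH, if_true]
          intro h
          obtain ⟨h1, _, _⟩ := hg1 C (conv_restrict hHM hC hCH) (Set.empty_subset _) hvC
          have h3 : w ∈ g C := by rw [h]; rfl
          exact hs_not hw (h1.1 h3)
        · simp only [hCH, if_false]
          intro h
          obtain ⟨z, hz, hz2⟩ := Set.not_subset.1 hCH
          have h3 : v' ∈ C \ Hs M i e := by
            have hz3 := not_hs (hC.1 hz) hz2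
            exact ⟨hC.2 v hvC z hz v' hv'.1 (hgate z hz3), hs_not hv'⟩
          rw [h, Set.mem_singleton_iff] at h3
          exact hwv h3.symm
  · by_cases hst : ∃ i e, (Hs M i e).Nonempty ∧ Disjoint C0 (Hs M i e) ∧
        (∀ j d, (Hs M j d).Nonempty → Hs M j d ⊆ Hs M i e → Hs M j d = Hs M i e) ∧
        ∃ v ∈ Hs M i e, ∃ v' ∈ Hs M i (!e), (∀ u ∈ Hs M i (!e), Btw v v' u) ∧ v' ∉ C0
    · right
      obtain ⟨i, e, hHn, hHd, hmin', v, hv, v', hv', hgate, hv0⟩ := hst
      obtain ⟨c, hc⟩ := h0
      refine ⟨v, hv.1, fun h => Set.disjoint_left.1 hHd h hv, fun C => C \ Hs M i e, ?_, ?_,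
        C0, hC0, subset_rfl, fun h => Set.disjoint_left.1 hHd h hv, ?_⟩
      · intro C hC h0C hvC
        refine ⟨?_, fun z hz => ⟨h0C hz, fun h => Set.disjoint_left.1 hHd hz h⟩, fun h => h.2 hv⟩
        beta_reduce
        rw [sdiff_hs hC]
        exact conv_inter hC (conv_hs M i _)
      · intro C D hC h0C hvC hD h0D hvD h
        have nC : ∀ E, C0 ⊆ E → (E \ Hs M i e).Nonempty := fun E hE =>
          ⟨c, hE hc, fun h => Set.disjoint_left.1 hHd hc h⟩
        exact Set.Subset.antisymm (key hf hM hmin' hv hC hD hvD (nC C h0C) h)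
          (key hf hM hmin' hv hD hC hvC (nC D h0D) h.symm)
      · intro C hC h0C hvC h
        have hcH : c ∈ Hs M i (!e) := not_hs (hC0.1 hc) fun h => Set.disjoint_left.1 hHd hc h
        have h3 : v' ∈ C \ Hs M i e :=
          ⟨hC.2 v hvC c (h0C hc) v' hv'.1 (hgate c hcH), hs_not hv'⟩
        have h4 : C \ Hs M i e = C0 := h
        rw [h4] at h3
        exact hv0 h3
    · left
      push Not at hst
      obtain ⟨c, hc⟩ := h0
      -- every half space disjoint from `C0` is minimal
      have hall : ∀ i e, (Hs M i e).Nonempty → Disjoint C0 (Hs M i e) →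
          ∀ j d, (Hs M j d).Nonempty → Hs M j d ⊆ Hs M i e → Hs M j d = Hs M i e := by
        intro i e hn hd j d hjn hj
        -- a minimal half space inside `Hs M j d`
        have hfs2 : {H : Set (ι → Bool) | ∃ k b, H = Hs M k b ∧ H.Nonempty ∧ H ⊆ Hs M j d}.Finite := by
          refine hfs.subset ?_
          rintro H ⟨k, b, rfl, -, -⟩
          exact fun z hz => hz.1
        obtain ⟨H, ⟨k, b, hH, hHn, hHs⟩, hmin⟩ := Set.exists_min_image _ Set.ncard hfs2
          ⟨Hs M j d, j, d, rfl, hjn, subset_rfl⟩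
        subst hH
        have hmin' : ∀ j' d', (Hs M j' d').Nonempty → Hs M j' d' ⊆ Hs M k b →
            Hs M j' d' = Hs M k b := by
          intro j' d' h1 h2
          exact Set.eq_of_subset_of_ncard_le h2 (hmin _ ⟨j', d', rfl, h1, h2.trans hHs⟩)
            (hf.subset fun z hz => hz.1)
        have hki : Hs M k b ⊆ Hs M i e := hHs.trans hj
        have hkd : Disjoint C0 (Hs M k b) := hd.mono_right hki
        have hkeq : Hs M k b = Hs M i e := by
          refine Set.Subset.antisymm hki fun w hw => ?_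
          by_contra hwk
          obtain ⟨z, hz⟩ := hHn
          have hcH : c ∈ Hs M k (!b) := not_hs (hC0.1 hc) fun h => Set.disjoint_left.1 hkd hc h
          obtain ⟨z', hz', hgate⟩ := gate hf hM (conv_hs M k (!b)) ⟨c, hcH⟩ hz.1
          have h1 := hst k b ⟨z, hz⟩ hkd hmin' z hz z' hz' hgate
          have h2 : z' ∈ Hs M i e := (conv_hs M i e).2 z (hki hz) w hw z' hz'.1
            (hgate w (not_hs hw.1 hwk))
          exact Set.disjoint_left.1 hd h1 h2
        exact Set.Subset.antisymm hj (by rw [← hkeq]; exact hHs)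
      intro C hC h0C
      refine ⟨fun z hz => hz.elim (fun h => h.1) (fun h => hC0.1 h), fun x hx y hy z hz hb => ?_⟩
      by_contra hzE
      have hzC : z ∈ C := by
        by_contra h
        exact hzE (Or.inl ⟨hz, h⟩)
      have hz0 : z ∉ C0 := fun h => hzE (Or.inr h)
      -- a half space around `z` disjoint from `C0`
      obtain ⟨w, hw, hgz⟩ := gate hf hM hC0 ⟨c, hc⟩ hz
      have hzw : z ≠ w := fun h => hz0 (h ▸ hw)
      obtain ⟨j, hj⟩ := Function.ne_iff.1 hzw
      have hd : Disjoint C0 (Hs M j (z j)) := by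
        rw [Set.disjoint_left]
        intro u hu hu2
        rcases hgz u hu j with h | h
        · exact hj h.symm
        · rw [hu2.2] at h
          exact hj h.symm
      have hzH : z ∈ Hs M j (z j) := ⟨hz, rfl⟩
      have hmin' := hall j (z j) ⟨z, hzH⟩ hd
      -- the half space is contained in `C`
      have hHC : Hs M j (z j) ⊆ C := by
        intro v hv
        have hcH : c ∈ Hs M j (!(z j)) := not_hs (hC0.1 hc) fun h => Set.disjoint_left.1 hd hc h
        obtain ⟨v', hv', hgate⟩ := gate hf hM (conv_hs M j (!(z j))) ⟨c, hcH⟩ hv.1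
        have h1 := hst j (z j) ⟨z, hzH⟩ hd hmin' v hv v' hv' hgate
        exact hC.2 v' (h0C h1) z hzC v hv.1 (dual hmin' hzH hv hgate)
      have hfin : ∀ x, x ∈ (M \ C) ∪ C0 → x ∈ M → z j = x j → False := by
        intro x hx hxM hxj
        have hxH : x ∈ Hs M j (z j) := ⟨hxM, hxj.symm⟩
        rcases hx with h | h
        · exact h.2 (hHC hxH)
        · exact Set.disjoint_left.1 hd h hxH
      rcases hb j with h | h
      · exact hfin x hx (hx.elim (fun h => h.1) (fun h => hC0.1 h)) h
      · exact hfin y hy (hy.elim (fun h => h.1) (fun h => hC0.1 h)) h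

end Pool.Agent.Q172.UC.Med
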