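import Mathlib

/-!
Moebius function of a union-closed family and Weisner's theorem.
-/

set_option autoImplicit false

namespace Pool.Agent.Q172.UC.Moe

theorem weisner {α : Type*} [DecidableEq α] (A : Finset (Finset α)) (U : Finset α)
    (huc : ∀ X ∈ A, ∀ Y ∈ A, X ∪ Y ∈ A) (m : Finset α → ℤ)
    (hm : ∀ X ∈ A, X ≠ U → ∑ Y ∈ A.filter (fun Y => X ⊆ Y), m Y = 0)
    (i : α) (hi : i ∈ U) (r : Finset α → Finset α)
    (hr : ∀ Y, r Y = (A.filter fun Z => Z ⊆ Y ∧ i ∉ Z).sup id) :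
    ∀ X ∈ A, i ∉ X → ∑ Y ∈ A.filter (fun Y => r Y = X ∧ X ⊆ Y), m Y = 0 := by
  -- `r Y` contains every member `X ⊆ Y` avoiding `i`
  have hr1 : ∀ X ∈ A, i ∉ X → ∀ Y, X ⊆ Y → X ⊆ r Y := by
    intro X hX hiX Y hXY
    rw [hr]
    exact Finset.le_sup (f := id) (Finset.mem_filter.2 ⟨hX, hXY, hiX⟩)
  have hr2 : ∀ Y, r Y ⊆ Y := by
    intro Y
    rw [hr]
    exact Finset.sup_le fun Z hZ => (Finset.mem_filter.1 hZ).2.1
  have hr3 : ∀ Y, i ∉ r Y := by
    intro Y
    rw [hr, Finset.mem_sup]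
    rintro ⟨Z, hZ, hi'⟩
    exact (Finset.mem_filter.1 hZ).2.2 hi'
  have hr4 : ∀ X ∈ A, i ∉ X → ∀ Y, X ⊆ Y → r Y ∈ A := by
    intro X hX hiX Y hXY
    have key : ∀ s : Finset (Finset α), s ⊆ A → s.Nonempty → s.sup id ∈ A := by
      intro s hs hne
      induction hne using Finset.Nonempty.cons_induction with
      | singleton a => simpa using hs (Finset.mem_singleton_self a)
      | cons a s ha hs' ih =>
        rw [Finset.sup_cons]
        exact huc _ (hs (Finset.mem_cons_self a s)) _ (ih fun x hx => hs (Finset.mem_cons_of_mem hx))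
    rw [hr]
    exact key _ (Finset.filter_subset _ _) ⟨X, Finset.mem_filter.2 ⟨hX, hXY, hiX⟩⟩
  -- induction from above
  have main : ∀ n : ℕ, ∀ X ∈ A, i ∉ X → (A.filter fun Y => X ⊆ Y).card ≤ n →
      ∑ Y ∈ A.filter (fun Y => r Y = X ∧ X ⊆ Y), m Y = 0 := by
    intro n
    induction n with
    | zero =>
      intro X hX _ hc
      exfalso
      have : X ∈ A.filter fun Y => X ⊆ Y := Finset.mem_filter.2 ⟨hX, subset_rfl⟩
      rw [Nat.le_zero, Finset.card_eq_zero] at hc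
      rw [hc] at this
      simp at this
    | succ n ih =>
      intro X hX hiX hc
      have hXU : X ≠ U := fun h => hiX (h ▸ hi)
      have h1 := hm X hX hXU
      -- split according to `r Y`
      have h2 : ∑ Y ∈ A.filter (fun Y => X ⊆ Y), m Y =
          ∑ X' ∈ A.filter (fun X' => X ⊆ X' ∧ i ∉ X'),
            ∑ Y ∈ A.filter (fun Y => r Y = X' ∧ X' ⊆ Y), m Y := by
        rw [← Finset.sum_fiberwise_of_maps_to (s := A.filter fun Y => X ⊆ Y)
          (t := A.filter fun X' => X ⊆ X' ∧ i ∉ X') (g := r)]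
        · refine Finset.sum_congr rfl fun X' hX' => Finset.sum_congr ?_ fun _ _ => rfl
          rw [Finset.mem_filter] at hX'
          ext Y
          simp only [Finset.mem_filter]
          constructor
          · rintro ⟨⟨hY, _⟩, hrY⟩
            exact ⟨hY, hrY, hrY ▸ hr2 Y⟩
          · rintro ⟨hY, hrY, hXY⟩
            exact ⟨⟨hY, hX'.2.1.trans hXY⟩, hrY⟩
        · intro Y hY
          rw [Finset.mem_filter] at hY
          exact Finset.mem_filter.2 ⟨hr4 X hX hiX Y hY.2, hr1 X hX hiX Y hY.2, hr3 Y⟩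
      rw [h2] at h1
      have hXmem : X ∈ A.filter (fun X' => X ⊆ X' ∧ i ∉ X') :=
        Finset.mem_filter.2 ⟨hX, subset_rfl, hiX⟩
      rw [← Finset.add_sum_erase _ _ hXmem, Finset.sum_eq_zero (s := Finset.erase _ X), add_zero] at h1
      · exact h1
      · intro X' hX'
        rw [Finset.mem_erase, Finset.mem_filter] at hX'
        refine ih X' hX'.2.1 hX'.2.2.2 ?_
        have : (A.filter fun Y => X' ⊆ Y) ⊂ (A.filter fun Y => X ⊆ Y) := by
          refine ⟨fun Y hY => ?_, fun h => ?_⟩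
          · rw [Finset.mem_filter] at hY ⊢
            exact ⟨hY.1, hX'.2.2.1.trans hY.2⟩
          · have := h (Finset.mem_filter.2 ⟨hX, subset_rfl⟩)
            rw [Finset.mem_filter] at this
            exact hX'.1 (Finset.Subset.antisymm this.2 hX'.2.2.1)
        have := Finset.card_lt_card this
        omega
  intro X hX hiX
  exact main _ X hX hiX le_rfl

theorem weighted {α : Type*} [DecidableEq α] (A : Finset (Finset α)) (U : Finset α)
    (huc : ∀ X ∈ A, ∀ Y ∈ A, X ∪ Y ∈ A) (m : Finset α → ℤ)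
    (hm : ∀ X ∈ A, X ≠ U → ∑ Y ∈ A.filter (fun Y => X ⊆ Y), m Y = 0)
    (i : α) (hi : i ∈ U) (φ : ℕ → ℝ) (h0 : φ 0 = 0) (hmono : Monotone φ)
    (hsub : ∀ a b, φ (a + b) ≤ φ a + φ b) :
    ∑ X ∈ A.filter (fun X => i ∉ X), φ (m X).natAbs ≤
      ∑ X ∈ A.filter (fun X => i ∈ X), φ (m X).natAbs := by
  classical
  let r : Finset α → Finset α := fun Y => (A.filter fun Z => Z ⊆ Y ∧ i ∉ Z).sup id
  have hw := weisner A U huc m hm i hi r (fun Y => rfl)
  have hsum : ∀ s : Finset (Finset α), φ (∑ Y ∈ s, m Y).natAbs ≤ ∑ Y ∈ s, φ (m Y).natAbs := by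
    intro s
    induction s using Finset.induction_on with
    | empty => simp [h0]
    | insert a s ha ih =>
      rw [Finset.sum_insert ha, Finset.sum_insert ha]
      calc φ (m a + ∑ Y ∈ s, m Y).natAbs ≤ φ ((m a).natAbs + (∑ Y ∈ s, m Y).natAbs) :=
            hmono (Int.natAbs_add_le _ _)
        _ ≤ _ := (hsub _ _).trans (by linarith)
  have hrself : ∀ Y ∈ A, i ∉ Y → r Y = Y := by
    intro Y hY hiY
    apply le_antisymm
    · exact Finset.sup_le fun Z hZ => (Finset.mem_filter.1 hZ).2.1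
    · exact Finset.le_sup (f := id) (Finset.mem_filter.2 ⟨hY, subset_rfl, hiY⟩)
  have h1 : ∀ X ∈ A.filter (fun X => i ∉ X), φ (m X).natAbs ≤
      ∑ Y ∈ (A.filter fun Y => i ∈ Y).filter (fun Y => r Y = X), φ (m Y).natAbs := by
    intro X hX
    rw [Finset.mem_filter] at hX
    have h2 := hw X hX.1 hX.2
    have hXmem : X ∈ A.filter (fun Y => r Y = X ∧ X ⊆ Y) :=
      Finset.mem_filter.2 ⟨hX.1, hrself X hX.1 hX.2, subset_rfl⟩
    rw [← Finset.add_sum_erase _ _ hXmem] at h2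
    have h3 : m X = -∑ Y ∈ (A.filter (fun Y => r Y = X ∧ X ⊆ Y)).erase X, m Y := by linarith
    rw [h3, Int.natAbs_neg]
    refine (hsum _).trans (Finset.sum_le_sum_of_subset_of_nonneg ?_ ?_)
    · intro Y hY
      rw [Finset.mem_erase, Finset.mem_filter] at hY
      rw [Finset.mem_filter, Finset.mem_filter]
      refine ⟨⟨hY.2.1, ?_⟩, hY.2.2.1⟩
      by_contra hiY
      exact hY.1 ((hrself Y hY.2.1 hiY).symm.trans hY.2.2.1)
    · intro Y _ _
      rw [← h0]
      exact hmono (Nat.zero_le _)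
  refine (Finset.sum_le_sum h1).trans ?_
  rw [← Finset.sum_biUnion]
  · refine Finset.sum_le_sum_of_subset_of_nonneg ?_ ?_
    · intro Y hY
      rw [Finset.mem_biUnion] at hY
      obtain ⟨X, _, hY⟩ := hY
      exact (Finset.mem_filter.1 hY).1
    · intro Y _ _
      rw [← h0]
      exact hmono (Nat.zero_le _)
  · intro X _ X' _ hne
    rw [Function.onFun, Finset.disjoint_left]
    intro Y hY hY'
    rw [Finset.mem_filter] at hY hY'
    exact hne (hY.2.symm.trans hY'.2)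

/-- the Moebius function of the members of a family exists -/
theorem exists_moebius {α : Type*} [DecidableEq α] (A : Finset (Finset α)) (U : Finset α)
    (hU : U ∈ A) (hsub : ∀ X ∈ A, X ⊆ U) :
    ∃ m : Finset α → ℤ, m U = 1 ∧ ∀ X ∈ A, X ≠ U → ∑ Y ∈ A.filter (fun Y => X ⊆ Y), m Y = 0 := by
  classical
  let _ : LocallyFiniteOrder {X // X ∈ A} := Fintype.toLocallyFiniteOrder
  let u : {X // X ∈ A} := ⟨U, hU⟩
  refine ⟨fun X => if h : X ∈ A then IncidenceAlgebra.mu ℤ (⟨X, h⟩ : {X // X ∈ A}) u else 0, ?_, ?_⟩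
  · simp [hU, u, IncidenceAlgebra.mu_self]
  · intro X hX hne
    have h1 := IncidenceAlgebra.sum_Icc_mu_left (𝕜 := ℤ) (⟨X, hX⟩ : {X // X ∈ A}) u
    have hxu : (⟨X, hX⟩ : {X // X ∈ A}) ≠ u := fun h => hne (congrArg Subtype.val h)
    rw [if_neg hxu] at h1
    rw [← h1, ← Finset.sum_attach]
    refine Finset.sum_bij' (fun Y _ => (⟨Y.1, (Finset.mem_filter.1 Y.2).1⟩ : {X // X ∈ A}))
      (fun Y hY => ⟨Y.1, Finset.mem_filter.2 ⟨Y.2, (Finset.mem_Icc.1 hY).1⟩⟩) ?_ ?_ ?_ ?_ ?_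
    · intro Y _
      rw [Finset.mem_Icc]
      exact ⟨(Finset.mem_filter.1 Y.2).2, hsub _ (Finset.mem_filter.1 Y.2).1⟩
    · intro Y _
      exact Finset.mem_attach _ _
    · intro Y _
      rfl
    · intro Y _
      rfl
    · intro Y _
      have h2 : Y.1 ∈ A := (Finset.mem_filter.1 Y.2).1
      simp only [h2, dite_true]

end Pool.Agent.Q172.UC.Moe
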