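import Pool.Agent.Q172.UC.Count

/-!
Intervals of the lattice of preorders on a finite set.
-/

set_option autoImplicit false

namespace Pool.Agent.Q172.UC

universe u

variable {V : Type u}

/-- `P` is a preorder (reflexive and transitive). -/
def Pre (P : V → V → Prop) : Prop := (∀ a, P a a) ∧ ∀ a b c, P a b → P b c → P a c

/-- `P` is a preorder between `L` and `M`. -/
def Betw (L M P : V → V → Prop) : Prop :=
  Pre P ∧ (∀ a b, L a b → P a b) ∧ ∀ a b, P a b → M a b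

theorem one_of_inj {X : Type*} [Finite X] (P : X → Prop)
    (φ : {x : X // P x} → {x : X // ¬ P x}) (hφ : Function.Injective φ) :
    2 * Nat.card {x : X // P x} ≤ Nat.card X := by
  have := two_of_inj P P (fun x => ⟨(φ ⟨x.1, x.2.1⟩).1, (φ ⟨x.1, x.2.1⟩).2, (φ ⟨x.1, x.2.1⟩).2⟩)
    (by
      intro x y h
      have h1 : (φ ⟨x.1, x.2.1⟩).1 = (φ ⟨y.1, y.2.1⟩).1 := congrArg (fun z => z.1) h
      have h2 := hφ (Subtype.ext h1)
      have h3 : x.1 = y.1 := congrArg (fun z => z.1) h2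
      exact Subtype.ext h3)
  tauto

/-- Equivalence with respect to `L`. -/
def Eqv (L : V → V → Prop) (u v : V) : Prop := L u v ∧ L v u

section

variable {L M : V → V → Prop}

theorem case_poset [Finite V] (hL : Pre L) (hM : Pre M) (hLM : ∀ a b, L a b → M a b)
    (hne : ∃ a b, M a b ∧ ¬ L a b) (hcl : ∀ a b, M a b → M b a → L a b) :
    ∃ a b, M a b ∧ ¬ L a b ∧ 2 * Nat.card {P : {P // Betw L M P} // P.1 a b} ≤
      Nat.card {P // Betw L M P} := by
  classical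
  have : Fintype V := Fintype.ofFinite V
  let S : Finset (V × V) := Finset.univ.filter fun e => M e.1 e.2 ∧ ¬ L e.1 e.2
  have hS : S.Nonempty := by
    obtain ⟨a, b, h⟩ := hne
    exact ⟨(a, b), by simpa [S] using h⟩
  obtain ⟨⟨a, b⟩, hab, hmin⟩ := Finset.exists_min_image S
    (fun e => (Finset.univ.filter fun c => M e.1 c ∧ M c e.2).card) hS
  have hab' : M a b ∧ ¬ L a b := by simpa [S] using hab
  have hmin' : ∀ c d, M c d → ¬ L c d → M a c → M d b →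
      (∀ w, M c w → M w d → M a w ∧ M w b) → M c a ∧ M b d := by
    intro c d h1 h2 _ _ h5
    have h6 := hmin (c, d) (by simp [S, h1, h2])
    have h7 : (Finset.univ.filter fun w => M c w ∧ M w d) ⊆
        (Finset.univ.filter fun w => M a w ∧ M w b) := by
      intro w hw
      simp only [Finset.mem_filter, Finset.mem_univ, true_and] at hw ⊢
      exact h5 w hw.1 hw.2
    have h8 := Finset.eq_of_subset_of_card_le h7 h6
    have h9 : a ∈ (Finset.univ.filter fun w => M c w ∧ M w d) := by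
      rw [h8]; simp [hM.1 a, hab'.1]
    have h10 : b ∈ (Finset.univ.filter fun w => M c w ∧ M w d) := by
      rw [h8]; simp [hM.1 b, hab'.1]
    simp only [Finset.mem_filter, Finset.mem_univ, true_and] at h9 h10
    exact ⟨h9.1, h10.2⟩
  refine ⟨a, b, hab'.1, hab'.2, ?_⟩
  let del : (V → V → Prop) → V → V → Prop := fun P u v => P u v ∧ ¬ (Eqv L u a ∧ Eqv L v b)
  have hdel : ∀ P, Betw L M P → Betw L M (del P) := by
    intro P hP
    refine ⟨⟨?_, ?_⟩, ?_, ?_⟩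
    · intro u
      refine ⟨hP.1.1 u, fun h => hab'.2 ?_⟩
      exact hL.2 _ _ _ h.1.2 h.2.1
    · rintro u w v ⟨h1, h2⟩ ⟨h3, h4⟩
      refine ⟨hP.1.2 _ _ _ h1 h3, fun h => ?_⟩
      have maw : M a w := hM.2 _ _ _ (hLM _ _ h.1.2) (hP.2.2 _ _ h1)
      have mwb : M w b := hM.2 _ _ _ (hP.2.2 _ _ h3) (hLM _ _ h.2.1)
      by_cases hlw : L a w
      · by_cases hwb : L w b
        · exact hab'.2 (hL.2 _ _ _ hlw hwb)
        · have := hmin' w b mwb hwb maw (hM.1 b) (fun z hz1 hz2 => ⟨hM.2 _ _ _ maw hz1, hz2⟩)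
          apply h4
          refine ⟨⟨hcl _ _ this.1 maw, hlw⟩, h.2⟩
      · have := hmin' a w maw hlw (hM.1 a) mwb (fun z hz1 hz2 => ⟨hz1, hM.2 _ _ _ hz2 mwb⟩)
        apply h2
        exact ⟨h.1, ⟨hcl _ _ mwb this.2, hcl _ _ this.2 mwb⟩⟩
    · intro u v h
      refine ⟨hP.2.1 _ _ h, fun h' => hab'.2 ?_⟩
      exact hL.2 _ _ _ h'.1.2 (hL.2 _ _ _ h h'.2.1)
    · intro u v h
      exact hP.2.2 _ _ h.1
  refine one_of_inj (fun P : {P // Betw L M P} => P.1 a b)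
    (fun P => ⟨⟨del P.1.1, hdel _ P.1.2⟩, fun h => h.2 ⟨⟨hL.1 a, hL.1 a⟩, ⟨hL.1 b, hL.1 b⟩⟩⟩) ?_
  intro P Q h
  have h' : del P.1.1 = del Q.1.1 := congrArg (fun z => z.1.1) h
  have hrec : ∀ P : {P : {P // Betw L M P} // P.1 a b}, ∀ u v,
      P.1.1 u v ↔ (del P.1.1 u v ∨ (Eqv L u a ∧ Eqv L v b)) := by
    intro P u v
    constructor
    · intro h1
      by_cases h2 : Eqv L u a ∧ Eqv L v b
      · exact Or.inr h2
      · exact Or.inl ⟨h1, h2⟩
    · rintro (h1 | h1)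
      · exact h1.1
      · exact P.1.2.1.2 _ _ _ (P.1.2.2.1 _ _ h1.1.1) (P.1.2.1.2 _ _ _ P.2 (P.1.2.2.1 _ _ h1.2.2))
  apply Subtype.ext
  apply Subtype.ext
  funext u v
  exact propext (by rw [hrec P, hrec Q, h'])

theorem case_one (hL : Pre L) (hM : Pre M) (hLM : ∀ a b, L a b → M a b) [Finite V]
    {a b : V} (hmin : ∀ u, M u a → M a u → L u a → L a u)
    (hMab : M a b) (hMba : M b a) (hab : L a b) (hba : ¬ L b a) :
    2 * Nat.card {P : {P // Betw L M P} // P.1 b a} ≤ Nat.card {P // Betw L M P} := by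
  classical
  let E : V → Prop := fun u => M u a ∧ M a u
  have hE : ∀ u, Eqv L u a → E u := fun u h => ⟨hLM _ _ h.1, hLM _ _ h.2⟩
  let bad : V → V → Prop := fun u v => E u ∧ ¬ Eqv L u a ∧ Eqv L v a
  let del : (V → V → Prop) → V → V → Prop := fun P u v => P u v ∧ ¬ bad u v
  have hdel : ∀ P, Betw L M P → Betw L M (del P) := by
    intro P hP
    refine ⟨⟨?_, ?_⟩, ?_, ?_⟩
    · intro u
      exact ⟨hP.1.1 u, fun h => h.2.1 h.2.2⟩
    · rintro u w v ⟨h1, h2⟩ ⟨h3, h4⟩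
      refine ⟨hP.1.2 _ _ _ h1 h3, fun h => ?_⟩
      have hw : E w := by
        have hv := hE v h.2.2
        exact ⟨hM.2 _ _ _ (hP.2.2 _ _ h3) hv.1, hM.2 _ _ _ h.1.2 (hP.2.2 _ _ h1)⟩
      by_cases hwa : Eqv L w a
      · exact h2 ⟨h.1, h.2.1, hwa⟩
      · exact h4 ⟨hw, hwa, h.2.2⟩
    · intro u v h
      refine ⟨hP.2.1 _ _ h, fun h' => h'.2.1 ?_⟩
      have h1 : L u a := hL.2 _ _ _ h h'.2.2.1
      exact ⟨h1, hmin u h'.1.1 h'.1.2 h1⟩
    · intro u v h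
      exact hP.2.2 _ _ h.1
  have hnb : ¬ Eqv L b a := fun h => hba h.1
  refine one_of_inj (fun P : {P // Betw L M P} => P.1 b a)
    (fun P => ⟨⟨del P.1.1, hdel _ P.1.2⟩, fun h => h.2 ⟨⟨hMba, hMab⟩, hnb, ⟨hL.1 a, hL.1 a⟩⟩⟩) ?_
  intro P Q h
  have h' : del P.1.1 = del Q.1.1 := congrArg (fun z => z.1.1) h
  have hrec : ∀ P : {P : {P // Betw L M P} // P.1 b a}, ∀ u v,
      P.1.1 u v ↔ (del P.1.1 u v ∨ (bad u v ∧ del P.1.1 u b)) := by
    intro P u v
    constructor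
    · intro h1
      by_cases h2 : bad u v
      · right
        refine ⟨h2, P.1.2.1.2 _ _ _ (P.1.2.1.2 _ _ _ h1 (P.1.2.2.1 _ _ h2.2.2.1))
          (P.1.2.2.1 _ _ hab), fun h3 => hnb h3.2.2⟩
      · exact Or.inl ⟨h1, h2⟩
    · rintro (h1 | ⟨h1, h2⟩)
      · exact h1.1
      · exact P.1.2.1.2 _ _ _ (P.1.2.1.2 _ _ _ h2.1 P.2) (P.1.2.2.1 _ _ h1.2.2.2)
  apply Subtype.ext
  apply Subtype.ext
  funext u v
  exact propext (by rw [hrec P, hrec Q, h'])

theorem case_two (hL : Pre L) (hM : Pre M) (hLM : ∀ a b, L a b → M a b) [Finite V]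
    {a b : V} (hmin : ∀ u, M u a → M a u → L u a → L a u)
    (hmax : ∀ u, M u a → M a u → L a u → L u a)
    (hMab : M a b) (hMba : M b a) (hab : ¬ Eqv L b a) :
    2 * Nat.card {P : {P // Betw L M P} // P.1 a b} ≤ Nat.card {P // Betw L M P} ∨
    2 * Nat.card {P : {P // Betw L M P} // P.1 b a} ≤ Nat.card {P // Betw L M P} := by
  classical
  let E : V → Prop := fun u => M u a ∧ M a u
  let bad : V → V → Prop := fun u v =>
    E u ∧ E v ∧ ((¬ Eqv L u a ∧ Eqv L v a) ∨ (Eqv L u a ∧ ¬ Eqv L v a))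
  let del : (V → V → Prop) → V → V → Prop := fun P u v => P u v ∧ ¬ bad u v
  have hdel : ∀ P, Betw L M P → Betw L M (del P) := by
    intro P hP
    refine ⟨⟨?_, ?_⟩, ?_, ?_⟩
    · intro u
      refine ⟨hP.1.1 u, fun h => ?_⟩
      rcases h.2.2 with h1 | h1
      · exact h1.1 h1.2
      · exact h1.2 h1.1
    · rintro u w v ⟨h1, h2⟩ ⟨h3, h4⟩
      refine ⟨hP.1.2 _ _ _ h1 h3, fun h => ?_⟩
      have hw : E w :=
        ⟨hM.2 _ _ _ (hP.2.2 _ _ h3) h.2.1.1, hM.2 _ _ _ h.1.2 (hP.2.2 _ _ h1)⟩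
      rcases h.2.2 with h5 | h5
      · by_cases hwa : Eqv L w a
        · exact h2 ⟨h.1, hw, Or.inl ⟨h5.1, hwa⟩⟩
        · exact h4 ⟨hw, h.2.1, Or.inl ⟨hwa, h5.2⟩⟩
      · by_cases hwa : Eqv L w a
        · exact h4 ⟨hw, h.2.1, Or.inr ⟨hwa, h5.2⟩⟩
        · exact h2 ⟨h.1, hw, Or.inr ⟨h5.1, hwa⟩⟩
    · intro u v h
      refine ⟨hP.2.1 _ _ h, fun h' => ?_⟩
      rcases h'.2.2 with h5 | h5
      · have h1 : L u a := hL.2 _ _ _ h h5.2.1
        exact h5.1 ⟨h1, hmin u h'.1.1 h'.1.2 h1⟩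
      · have h1 : L a v := hL.2 _ _ _ h5.1.2 h
        exact h5.2 ⟨hmax v h'.2.1.1 h'.2.1.2 h1, h1⟩
    · intro u v h
      exact hP.2.2 _ _ h.1
  have haa : Eqv L a a := ⟨hL.1 a, hL.1 a⟩
  have hEa : E a := ⟨hM.1 a, hM.1 a⟩
  have hEb : E b := ⟨hMba, hMab⟩
  refine two_of_inj (fun P : {P // Betw L M P} => P.1 a b) (fun P => P.1 b a)
    (fun P => ⟨⟨del P.1.1, hdel _ P.1.2⟩, fun h => h.2 ⟨hEa, hEb, Or.inr ⟨haa, hab⟩⟩,
      fun h => h.2 ⟨hEb, hEa, Or.inl ⟨hab, haa⟩⟩⟩) ?_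
  intro P Q h
  have h' : del P.1.1 = del Q.1.1 := congrArg (fun z => z.1.1) h
  have hrec : ∀ P : {P : {P // Betw L M P} // P.1 a b ∧ P.1 b a}, ∀ u v,
      P.1.1 u v ↔ (del P.1.1 u v ∨ (bad u v ∧ ((Eqv L v a ∧ del P.1.1 u b) ∨
        (Eqv L u a ∧ del P.1.1 b v)))) := by
    intro P u v
    constructor
    · intro h1
      by_cases h2 : bad u v
      · right
        refine ⟨h2, ?_⟩
        rcases h2.2.2 with h5 | h5
        · left
          refine ⟨h5.2, P.1.2.1.2 _ _ _ (P.1.2.1.2 _ _ _ h1 (P.1.2.2.1 _ _ h5.2.1)) P.2.1,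
            fun h3 => ?_⟩
          rcases h3.2.2 with h6 | h6
          · exact hab h6.2
          · exact h5.1 h6.1
        · right
          refine ⟨h5.1, P.1.2.1.2 _ _ _ P.2.2 (P.1.2.1.2 _ _ _ (P.1.2.2.1 _ _ h5.1.2) h1),
            fun h3 => ?_⟩
          rcases h3.2.2 with h6 | h6
          · exact h5.2 h6.2
          · exact hab h6.1
      · exact Or.inl ⟨h1, h2⟩
    · rintro (h1 | ⟨_, h2 | h2⟩)
      · exact h1.1
      · exact P.1.2.1.2 _ _ _ (P.1.2.1.2 _ _ _ h2.2.1 P.2.2) (P.1.2.2.1 _ _ h2.1.2)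
      · exact P.1.2.1.2 _ _ _ (P.1.2.2.1 _ _ h2.1.1) (P.1.2.1.2 _ _ _ P.2.1 h2.2.1)
  apply Subtype.ext
  apply Subtype.ext
  funext u v
  exact propext (by rw [hrec P, hrec Q, h'])

/-- **Every interval of the lattice of the preorders on a finite set.** -/
theorem interval [Finite V] (hL : Pre L) (hM : Pre M) (hLM : ∀ a b, L a b → M a b)
    (hne : ∃ a b, M a b ∧ ¬ L a b) :
    ∃ a b, M a b ∧ ¬ L a b ∧ 2 * Nat.card {P : {P // Betw L M P} // P.1 a b} ≤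
      Nat.card {P // Betw L M P} := by
  classical
  by_cases hcl : ∀ a b, M a b → M b a → L a b
  · exact case_poset hL hM hLM hne hcl
  · push Not at hcl
    obtain ⟨a₀, b₀, h1, h2, h3⟩ := hcl
    have : Fintype V := Fintype.ofFinite V
    obtain ⟨a, ha, hamin⟩ := Finset.exists_min_image
      (Finset.univ.filter fun u => M u a₀ ∧ M a₀ u)
      (fun u => (Finset.univ.filter fun w => L w u).card)
      ⟨a₀, by simp [hM.1 a₀]⟩
    simp only [Finset.mem_filter, Finset.mem_univ, true_and] at ha hamin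
    have hmin : ∀ u, M u a → M a u → L u a → L a u := by
      intro u hu1 hu2 hu3
      have h4 := hamin u ⟨hM.2 _ _ _ hu1 ha.1, hM.2 _ _ _ ha.2 hu2⟩
      have h5 : (Finset.univ.filter fun w => L w u) ⊆ (Finset.univ.filter fun w => L w a) := by
        intro w hw
        simp only [Finset.mem_filter, Finset.mem_univ, true_and] at hw ⊢
        exact hL.2 _ _ _ hw hu3
      have h6 := Finset.eq_of_subset_of_card_le h5 h4
      have h7 : a ∈ (Finset.univ.filter fun w => L w u) := by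
        rw [h6]; simp [hL.1 a]
      simpa using h7
    have hb : ∃ b, M a b ∧ M b a ∧ ¬ Eqv L b a := by
      by_contra hcon
      push Not at hcon
      have h4 := hcon a₀ ha.1 ha.2
      have h5 := hcon b₀ (hM.2 _ _ _ ha.1 h1) (hM.2 _ _ _ h2 ha.2)
      exact h3 (hL.2 _ _ _ h4.1 h5.2)
    by_cases hex : ∃ b, M a b ∧ M b a ∧ L a b ∧ ¬ L b a
    · obtain ⟨b, hb1, hb2, hb3, hb4⟩ := hex
      exact ⟨b, a, hb2, hb4, case_one hL hM hLM hmin hb1 hb2 hb3 hb4⟩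
    · push Not at hex
      obtain ⟨b, hb1, hb2, hb3⟩ := hb
      have hnab : ¬ L a b := fun h => hb3 ⟨hex b hb1 hb2 h, h⟩
      have hnba : ¬ L b a := fun h => hb3 ⟨h, hmin b hb2 hb1 h⟩
      rcases case_two hL hM hLM hmin (fun u hu1 hu2 hu3 => hex u hu2 hu1 hu3) hb1 hb2 hb3 with h | h
      · exact ⟨a, b, hb1, hnab, h⟩
      · exact ⟨b, a, hb2, hnba, h⟩

end

end Pool.Agent.Q172.UC
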